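import Pool.Agent.Y142.ZS.Stm
import Pool.Agent.Y142.SS.Stm
import Pool.Agent.Y331.ZD.Krq

set_option autoImplicit false

/-! Task TYPG of project OI (job 33550, helper166): the local type split and generic. -/

open Polynomial Filter Topology
open Pool.Agent.Y142.ZI Pool.Agent.Y142.ZD
open Pool.Agent.Y331.ZD (um_add um_sub near_split norm_map exists_mu exists_bd root_aut)

namespace Pool.Agent.Q166.OI.TYPG

/-- a signed power of five -/
def SP (t : ℤ) (a : ℕ) : Prop := t = 5 ^ a ∨ t = -5 ^ a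

lemma four_aux (s1 u2 u3 u4 : ℤ) (h1 : s1 = 1 ∨ s1 = -1) (h2 : u2 = 1 ∨ u2 = -1 ∨ 5 ∣ u2)
    (h3 : u3 = 1 ∨ u3 = -1 ∨ 5 ∣ u3) (h4 : u4 = 1 ∨ u4 = -1 ∨ 5 ∣ u4)
    (h : s1 + u2 + u3 + u4 = 0) : s1 + u2 = 0 ∨ s1 + u3 = 0 ∨ s1 + u4 = 0 := by
  omega

lemma sp_div (a b : ℕ) (t : ℤ) (hab : a ≤ b) (h : SP t b) :
    ∃ u : ℤ, t = 5 ^ a * u ∧ (u = 1 ∨ u = -1 ∨ 5 ∣ u) := by
  obtain ⟨d, rfl⟩ := Nat.exists_eq_add_of_le hab
  rcases Nat.eq_zero_or_pos d with hd | hd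
  · subst hd
    rcases h with h | h
    · exact ⟨1, by rw [h]; simp, Or.inl rfl⟩
    · exact ⟨-1, by rw [h]; simp, Or.inr (Or.inl rfl)⟩
  · obtain ⟨e, rfl⟩ : ∃ e, d = e + 1 := ⟨d - 1, by omega⟩
    rcases h with h | h
    · exact ⟨5 ^ (e + 1), by rw [h, pow_add], Or.inr (Or.inr ⟨5 ^ e, by rw [pow_succ]; ring⟩)⟩
    · exact ⟨-5 ^ (e + 1), by rw [h, pow_add]; ring, Or.inr (Or.inr ⟨-5 ^ e, by rw [pow_succ]; ring⟩)⟩

lemma four_min (a b c d : ℕ) (t1 t2 t3 t4 : ℤ) (hb : a ≤ b) (hc : a ≤ c) (hd : a ≤ d)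
    (h1 : SP t1 a) (h2 : SP t2 b) (h3 : SP t3 c) (h4 : SP t4 d) (h : t1 + t2 + t3 + t4 = 0) :
    t1 + t2 = 0 ∨ t1 + t3 = 0 ∨ t1 + t4 = 0 := by
  obtain ⟨u2, rfl, hu2⟩ := sp_div a b t2 hb h2
  obtain ⟨u3, rfl, hu3⟩ := sp_div a c t3 hc h3
  obtain ⟨u4, rfl, hu4⟩ := sp_div a d t4 hd h4
  have h5 : (5 : ℤ) ^ a ≠ 0 := by positivity
  have h1' : ∃ s : ℤ, t1 = 5 ^ a * s ∧ (s = 1 ∨ s = -1) := by
    rcases h1 with h1 | h1
    · exact ⟨1, by rw [h1]; ring, Or.inl rfl⟩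
    · exact ⟨-1, by rw [h1]; ring, Or.inr rfl⟩
  obtain ⟨s, rfl, hs⟩ := h1'
  have h6 : s + u2 + u3 + u4 = 0 := by
    have : (5 : ℤ) ^ a * (s + u2 + u3 + u4) = 0 := by linarith
    rcases mul_eq_zero.1 this with h7 | h7
    · exact absurd h7 h5
    · exact h7
  rcases four_aux s u2 u3 u4 hs hu2 hu3 hu4 h6 with h7 | h7 | h7
  · left; rw [← mul_add, h7, mul_zero]
  · right; left; rw [← mul_add, h7, mul_zero]
  · right; right; rw [← mul_add, h7, mul_zero]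

lemma four (a b c d : ℕ) (t1 t2 t3 t4 : ℤ)
    (h1 : SP t1 a) (h2 : SP t2 b) (h3 : SP t3 c) (h4 : SP t4 d) (h : t1 + t2 + t3 + t4 = 0) :
    (t1 + t2 = 0 ∧ t3 + t4 = 0) ∨ (t1 + t3 = 0 ∧ t2 + t4 = 0) ∨ (t1 + t4 = 0 ∧ t2 + t3 = 0) := by
  have hmin : (a ≤ b ∧ a ≤ c ∧ a ≤ d) ∨ (b ≤ a ∧ b ≤ c ∧ b ≤ d) ∨ (c ≤ a ∧ c ≤ b ∧ c ≤ d) ∨
      (d ≤ a ∧ d ≤ b ∧ d ≤ c) := by omega
  rcases hmin with ⟨x, y, z⟩ | ⟨x, y, z⟩ | ⟨x, y, z⟩ | ⟨x, y, z⟩
  · rcases four_min a b c d t1 t2 t3 t4 x y z h1 h2 h3 h4 h with h5 | h5 | h5 <;> omega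
  · rcases four_min b a c d t2 t1 t3 t4 x y z h2 h1 h3 h4 (by linarith) with h5 | h5 | h5 <;> omega
  · rcases four_min c a b d t3 t1 t2 t4 x y z h3 h1 h2 h4 (by linarith) with h5 | h5 | h5 <;> omega
  · rcases four_min d a b c t4 t1 t2 t3 x y z h4 h1 h2 h3 (by linarith) with h5 | h5 | h5 <;> omega

/-- the roots -/
def b0 {n : ℕ} (j : Fin n × Bool) : ℤ := if j.2 then 5 ^ (j.1 : ℕ) else -5 ^ (j.1 : ℕ)

/-- the sign change -/
def sg {n : ℕ} (j : Fin n × Bool) : Fin n × Bool := (j.1, !j.2)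

lemma sg_sg {n : ℕ} (j : Fin n × Bool) : sg (sg j) = j := by
  simp [sg]

lemma b0_sg {n : ℕ} (j : Fin n × Bool) : b0 (sg j) = -b0 j := by
  obtain ⟨i, s⟩ := j
  cases s <;> simp [b0, sg]

lemma b0_sp {n : ℕ} (j : Fin n × Bool) : SP (b0 j) (j.1 : ℕ) := by
  obtain ⟨i, s⟩ := j
  cases s
  · right; simp [b0]
  · left; simp [b0]

lemma sp_neg {t : ℤ} {a : ℕ} (h : SP t a) : SP (-t) a := by
  rcases h with h | h
  · right; rw [h]
  · left; rw [h, neg_neg]

lemma b0_inj {n : ℕ} {j j' : Fin n × Bool} (h : b0 j = b0 j') : j = j' := by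
  obtain ⟨i, s⟩ := j
  obtain ⟨i', s'⟩ := j'
  have p1 : (0 : ℤ) < 5 ^ (i : ℕ) := by positivity
  have p2 : (0 : ℤ) < 5 ^ (i' : ℕ) := by positivity
  have key : (5 : ℤ) ^ (i : ℕ) = 5 ^ (i' : ℕ) → i = i' := by
    intro h1
    have h2 : (5 : ℕ) ^ (i : ℕ) = 5 ^ (i' : ℕ) := by exact_mod_cast h1
    exact Fin.ext (Nat.pow_right_injective (le_refl 5 |>.trans' (by norm_num)) h2)
  cases s <;> cases s' <;> simp only [b0] at h
  · simp only [Bool.false_eq_true, if_false, neg_inj] at h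
    rw [key h]
  · exfalso; simp at h; linarith
  · exfalso; simp at h; linarith
  · simp only [if_true] at h
    rw [key h]

lemma comb {n : ℕ} (j1 j2 j3 j4 : Fin n × Bool) (h : b0 j1 + b0 j4 - b0 j3 - b0 j2 = 0)
    (h12 : j1 ≠ j2) : (j3 = j1 ∧ j4 = j2) ∨ (j3 = sg j2 ∧ j4 = sg j1) := by
  rcases four _ _ _ _ (b0 j1) (-b0 j2) (-b0 j3) (b0 j4) (b0_sp j1) (sp_neg (b0_sp j2))
    (sp_neg (b0_sp j3)) (b0_sp j4) (by linarith) with ⟨h1, h2⟩ | ⟨h1, h2⟩ | ⟨h1, h2⟩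
  · exact absurd (b0_inj (by linarith)) h12
  · exact Or.inl ⟨b0_inj (by linarith), b0_inj (by linarith)⟩
  · refine Or.inr ⟨b0_inj ?_, b0_inj ?_⟩
    · rw [b0_sg]; linarith
    · rw [b0_sg]; linarith

/-- task TYPG -/
theorem t : Pool.Agent.Y142.ZS.S_TYPG := by
  classical
  intro ℓ _ n
  set L := AlgebraicClosure ℚ_[ℓ] with hL
  set i : ℚ_[ℓ] →+* L := algebraMap ℚ_[ℓ] L with hi
  have hnorm : ∀ x : ℚ_[ℓ], ‖i x‖ = ‖x‖ := norm_map
  set J : Type := Fin n × Bool with hJ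
  set R₀ : ℚ_[ℓ][X] := ∏ j : J, (X - C ((b0 j : ℤ) : ℚ_[ℓ])) with hR₀def
  have hcardJ : Fintype.card J = 2 * n := by
    show Fintype.card (Fin n × Bool) = 2 * n
    rw [Fintype.card_prod, Fintype.card_fin, Fintype.card_bool]; ring
  have hR₀ : R₀.Monic := monic_prod_of_monic _ _ fun j _ => monic_X_sub_C _
  have hdeg0 : R₀.natDegree = 2 * n := by
    rw [hR₀def, natDegree_prod_of_monic _ _ fun j _ => monic_X_sub_C _]
    simp only [natDegree_X_sub_C, Finset.sum_const, Finset.card_univ, smul_eq_mul, mul_one]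
    exact hcardJ
  have hcomp : R₀.comp (-X) = R₀ := by
    rw [hR₀def, prod_comp]
    have h1 : ∀ j : J, (X - C ((b0 j : ℤ) : ℚ_[ℓ])).comp (-X) = (-1) * (X - C ((b0 (sg j) : ℤ) : ℚ_[ℓ])) := by
      intro j
      rw [sub_comp, X_comp, C_comp, b0_sg]
      push_cast
      rw [C_neg]
      ring
    rw [Finset.prod_congr rfl fun j _ => h1 j, Finset.prod_mul_distrib, Finset.prod_const,
      Finset.card_univ, hcardJ, pow_mul]
    norm_num
    exact Equiv.prod_comp (Function.Involutive.toPerm (sg (n := n)) sg_sg) (fun j : J => (X - ((b0 j : ℤ) : ℚ_[ℓ][X])))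
  refine ⟨R₀, hR₀, hdeg0, hcomp, ?_⟩
  set b : J → L := fun j => i ((b0 j : ℤ) : ℚ_[ℓ]) with hb
  have hbint : ∀ j, b j = ((b0 j : ℤ) : L) := fun j => by simp only [hb]; rw [map_intCast]
  have hprod0 : R₀.map i = ∏ j : J, (X - C (b j)) := by
    rw [hR₀def, Polynomial.map_prod]
    apply Finset.prod_congr rfl
    intro j _
    rw [Polynomial.map_sub, map_X, map_C]
  have hM : ∀ j, ‖b j‖ ≤ 1 := by
    intro j
    simp only [hb]
    rw [hnorm]
    exact Padic.norm_int_le_one _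
  obtain ⟨μ, hμ0, hμ1, hμ⟩ := exists_mu
    (fun q : J × J × J × J => ‖b q.1 + b q.2.2.2 - b q.2.2.1 - b q.2.1‖)
    (fun q => b q.1 + b q.2.2.2 - b q.2.2.1 - b q.2.1 ≠ 0)
    (fun q hq => norm_pos_iff.mpr hq)
  have hcz : ∀ j1 j2 j3 j4 : J, ‖b j1 + b j4 - b j3 - b j2‖ < μ → b0 j1 + b0 j4 - b0 j3 - b0 j2 = 0 := by
    intro j1 j2 j3 j4 h
    by_contra hne
    have h1 := hμ (j1, j2, j3, j4) (by
      dsimp only
      rw [hbint, hbint, hbint, hbint]
      intro h0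
      apply hne
      have : ((b0 j1 + b0 j4 - b0 j3 - b0 j2 : ℤ) : L) = 0 := by push_cast; exact h0
      exact_mod_cast this)
    exact absurd h1 (not_le.mpr h)
  have hsep2 : ∀ j1 j2 : J, ‖b j1 - b j2‖ < μ → j1 = j2 := by
    intro j1 j2 h
    have h1 := hcz j1 j2 j2 j2 (by
      have : b j1 + b j2 - b j2 - b j2 = b j1 - b j2 := by ring
      rw [this]; exact h)
    exact b0_inj (by linarith)
  have hℓ1 : (1 : ℝ) < ℓ := by exact_mod_cast (Fact.out : ℓ.Prime).one_lt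
  have hℓ0 : (0 : ℝ) < ℓ := by linarith
  have hinv1 : (ℓ : ℝ)⁻¹ < 1 := inv_lt_one_of_one_lt₀ hℓ1
  have hinv0 : 0 < (ℓ : ℝ)⁻¹ := inv_pos.2 hℓ0
  obtain ⟨k₀, hk₀⟩ := exists_pow_lt_of_lt_one hμ0 hinv1
  set ε : ℝ := min (μ ^ Fintype.card J / 2) (μ / 2) with hε
  have hεpos : 0 < ε := by
    rw [hε]; exact lt_min (by positivity) (by positivity)
  have hε1 : ε * 1 ^ Fintype.card J < μ ^ Fintype.card J := by
    rw [one_pow, mul_one]
    have h1 : ε ≤ μ ^ Fintype.card J / 2 := min_le_left _ _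
    have h2 : 0 < μ ^ Fintype.card J := by positivity
    linarith
  have hεμ : ε < μ := by
    have h1 : ε ≤ μ / 2 := min_le_right _ _
    linarith
  refine ⟨ε, k₀, hεpos, ?_⟩
  intro k Q c hk hQ hQdeg hc0 hc1 hinv hcl
  obtain ⟨r, hrinj, hrb, hprod⟩ := near_split (b := b) (P := (resc ℓ k Q).map i) hμ0 (le_refl 1) hM
    (fun u v huv => by
      by_contra hlt
      push Not at hlt
      exact huv (hsep2 u v hlt))
    hεpos.le hε1 ((resc_monic k hQ).map i)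
    (by rw [natDegree_map, resc_natDegree, hQdeg, hcardJ])
    (fun j => by
      rw [← hprod0, ← Polynomial.map_sub, coeff_map, hnorm]
      exact (hcl j).le)
  have hLk : ((ℓ : ℚ_[ℓ]) ^ k) ≠ 0 := ell_pow_ne k
  set la : L := i ((ℓ : ℚ_[ℓ]) ^ k) with hla
  have hla0 : la ≠ 0 := (_root_.map_ne_zero _).2 hLk
  have hlan' : ‖la‖ = ((ℓ : ℝ) ^ k)⁻¹ := by
    rw [hla, hnorm, norm_pow, Padic.norm_p, inv_pow]
  have hlan : ‖la‖ < μ := by
    rw [hla, hnorm, norm_pow, Padic.norm_p]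
    exact (pow_le_pow_of_le_one hinv0.le hinv1.le hk).trans_lt hk₀
  have hlapos : 0 < ‖la‖ := norm_pos_iff.2 hla0
  have hr1 : ∀ j, ‖r j‖ ≤ 1 := by
    intro j
    have h1 : r j = (r j - b j) + b j := by ring
    rw [h1]
    exact (IsUltrametricDist.norm_add_le_max _ _).trans
      (max_le ((hrb j).le.trans hμ1) (hM j))
  -- the roots of `Q`
  set q : J → L := fun j => 1 + la * r j with hq
  have hqinj : Function.Injective q := by
    intro u v huv
    simp only [hq, add_right_inj] at huv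
    exact hrinj (mul_left_cancel₀ hla0 huv)
  have hrootR : ∀ s : L, aeval s (resc ℓ k Q) = 0 ↔ ∃ j, s = r j := by
    intro s
    rw [aeval_def, ← eval_map, ← hi, hprod, eval_prod, Finset.prod_eq_zero_iff]
    simp [sub_eq_zero]
  have hQroot : ∀ x : L, aeval x Q = 0 → ∃ j, q j = x := by
    intro x hx
    have h1 := (aeval_resc k Q x).mpr hx
    obtain ⟨j, hj⟩ := (hrootR _).mp h1
    refine ⟨j, ?_⟩
    simp only [hq]
    rw [← hj, hla, mul_div_cancel₀ _ hla0]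
    ring
  have hQroot' : ∀ j, aeval (q j) Q = 0 := by
    intro j
    have h1 : aeval (r j) (resc ℓ k Q) = 0 := (hrootR _).mpr ⟨j, rfl⟩
    rw [aeval_resc'] at h1
    exact h1
  have hsepR : (resc ℓ k Q).Separable := by
    refine (separable_map i).mp ?_
    rw [hprod]
    exact (separable_prod_X_sub_C_iff (f := r)).mpr hrinj
  -- the roots are rational
  have hfix : ∀ (τ : L ≃ₐ[ℚ_[ℓ]] L) (j : J), τ (r j) = r j := by
    intro τ j
    have h1 : aeval (τ (r j)) (resc ℓ k Q) = 0 := root_aut τ ((hrootR _).mpr ⟨j, rfl⟩)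
    obtain ⟨j'', hj''⟩ := (hrootR _).mp h1
    have hbf : τ (b j) = b j := τ.commutes _
    have h2 : ‖r j'' - b j‖ < μ := by
      rw [← hj'']
      nth_rewrite 1 [← hbf]
      rw [← map_sub, Pool.Agent.Y331.ZD.norm_inv']
      exact hrb j
    have h3 : j'' = j := by
      apply hsep2
      have : b j'' - b j = (r j'' - b j) - (r j'' - b j'') := by ring
      rw [this]
      exact um_sub h2 (hrb j'')
    rw [hj'', h3]
  have hqfix : ∀ (τ : L ≃ₐ[ℚ_[ℓ]] L) (j : J), τ (q j) = q j := by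
    intro τ j
    simp only [hq]
    rw [map_add, map_one, map_mul, hfix]
    congr 2
    exact τ.commutes _
  have hrange : ∀ j, q j ∈ i.range := by
    intro j
    have h1 : q j ∈ Set.range (algebraMap ℚ_[ℓ] L) :=
      (InfiniteGalois.mem_range_algebraMap_iff_fixed (q j)).2 fun f => hqfix f j
    exact h1
  -- products of opposite roots
  have hopp : ∀ j, q (sg j) * q j = i c := by
    intro j
    obtain ⟨hq0, hcq⟩ := hinv (q j) (hQroot' j)
    obtain ⟨j', hj'⟩ := hQroot _ hcq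
    have h1 : q j' * q j = i c := by
      rw [hj', div_mul_cancel₀ _ hq0]
    have h2 : la * (r j' + r j + la * (r j' * r j)) = i (c - 1) := by
      rw [map_sub, map_one, ← h1]
      simp only [hq]
      ring
    have h3 : ‖r j' + r j + la * (r j' * r j)‖ < μ := by
      have h4 : ‖la‖ * ‖r j' + r j + la * (r j' * r j)‖ < ‖la‖ * ε := by
        rw [← norm_mul, h2, hnorm, hlan', mul_comm]
        exact hc1
      exact (lt_of_mul_lt_mul_left h4 hlapos.le).trans hεμ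
    have h4 : ‖la * (r j' * r j)‖ < μ := by
      rw [norm_mul, norm_mul]
      calc ‖la‖ * (‖r j'‖ * ‖r j‖) ≤ ‖la‖ * (1 * 1) := by
            gcongr
            · exact hr1 _
            · exact hr1 _
        _ < μ := by rw [mul_one, mul_one]; exact hlan
    have h5 : ‖r j' + r j‖ < μ := by
      have : r j' + r j = (r j' + r j + la * (r j' * r j)) - la * (r j' * r j) := by ring
      rw [this]
      exact um_sub h3 h4
    have h6 : j' = sg j := by
      apply hsep2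
      have hbs : b (sg j) = -b j := by
        rw [hbint, hbint, b0_sg]; push_cast; rfl
      have : b j' - b (sg j) = ((r j' + r j) - (r j' - b j')) - (r j - b j) := by
        rw [hbs]; ring
      rw [this]
      exact um_sub (um_sub h5 (hrb j')) (hrb j)
    rw [← h6, h1]
  refine ⟨?_, separable_of_resc k hsepR, ?_⟩
  · refine Splits.of_splits_map i (IsAlgClosed.splits _) ?_
    intro a ha
    have h1 : aeval a Q = 0 := by
      rw [mem_roots (hQ.map i).ne_zero, IsRoot, eval_map, ← aeval_def] at ha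
      exact ha
    obtain ⟨j, rfl⟩ := hQroot a h1
    exact hrange j
  · intro x y z w hx hy hz hw hxy hxw
    obtain ⟨j1, rfl⟩ := hQroot x hx
    obtain ⟨j2, rfl⟩ := hQroot y hy
    obtain ⟨j3, rfl⟩ := hQroot z hz
    obtain ⟨j4, rfl⟩ := hQroot w hw
    have h12 : j1 ≠ j2 := fun h => hxy (by rw [h])
    have h1 : la * (r j1 + r j4 - r j3 - r j2) = la * (la * (r j3 * r j2 - r j1 * r j4)) := by
      simp only [hq] at hxw
      linear_combination hxw
    have h2 := mul_left_cancel₀ hla0 h1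
    have h3 : ‖r j1 + r j4 - r j3 - r j2‖ < μ := by
      rw [h2, norm_mul]
      have h4 : ‖r j3 * r j2 - r j1 * r j4‖ ≤ 1 := by
        rw [sub_eq_add_neg]
        refine (IsUltrametricDist.norm_add_le_max _ _).trans (max_le ?_ ?_)
        · rw [norm_mul]
          exact mul_le_one₀ (hr1 _) (norm_nonneg _) (hr1 _)
        · rw [norm_neg, norm_mul]
          exact mul_le_one₀ (hr1 _) (norm_nonneg _) (hr1 _)
      calc ‖la‖ * ‖r j3 * r j2 - r j1 * r j4‖ ≤ ‖la‖ * 1 := by gcongr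
        _ < μ := by rw [mul_one]; exact hlan
    have h5 : ‖b j1 + b j4 - b j3 - b j2‖ < μ := by
      have : b j1 + b j4 - b j3 - b j2 = (r j1 + r j4 - r j3 - r j2) -
          ((r j1 - b j1) + (r j4 - b j4) - (r j3 - b j3) - (r j2 - b j2)) := by ring
      rw [this]
      exact um_sub h3 (um_sub (um_sub (um_add (hrb j1) (hrb j4)) (hrb j3)) (hrb j2))
    rcases comb j1 j2 j3 j4 (hcz j1 j2 j3 j4 h5) h12 with ⟨h6, h7⟩ | ⟨h6, h7⟩
    · left
      rw [h6, h7]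
      exact ⟨rfl, rfl⟩
    · right
      rw [h6, h7]
      exact ⟨hopp j2, hopp j1⟩

end Pool.Agent.Q166.OI.TYPG
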